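import Pool.Agent.Helper93.TS.Stmts

/-!
# Two-scale sums-differences: no injectivity needed
-/

set_option autoImplicit false

namespace Pool.Agent.Helper93.TS

open Pool.Agent.Helper8.Kak

theorem slb_ker_mk {Ω : Type} (R : Setoid Ω) :
    Setoid.ker (fun ω => (Quotient.mk R ω : Quotient R)) = R := by
  ext a b
  exact Quotient.eq

/-- the law of the selected point -/
theorem slb_MP {Ω A QQ : Type} [Fintype Ω] [Fintype A] [Fintype QQ] {p : Ω → ℝ} (hp : IsProb p)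
    (hpos : ∀ ω, 0 < p ω) (R : Setoid Ω) (mk : Ω → QQ) (hmk : ∀ ω ω', mk ω = mk ω' ↔ R ω ω')
    {q : A → ℝ} (hq : IsProb q) (σ : A → QQ → Ω)
    (h1 : ∀ π c, 0 < q π → mk (σ π c) = c)
    (h2 : ∀ ω, law q (fun π => σ π (mk ω)) ω = p ω / cls p R ω)
    (pA : A × QQ → ℝ) (hA : ∀ x, pA x = q x.1 * law p mk x.2) :
    MP pA p (fun x => σ x.1 x.2) := by
  classical
  intro ω
  have hcls : law p mk (mk ω) = cls p R ω := by
    rw [law_eq_cls]
    have : Setoid.ker mk = R := by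
      ext a b
      exact hmk a b
    rw [this]
  have hc : 0 < cls p R ω := cls_pos hp.1 R (hpos ω)
  have e : p ω = law p mk (mk ω) * law q (fun π => σ π (mk ω)) ω := by
    rw [h2, hcls]
    field_simp
  rw [e]
  unfold law
  rw [Fintype.sum_prod_type, Finset.mul_sum]
  refine Finset.sum_congr rfl fun π _ => ?_
  rw [Finset.sum_eq_single (mk ω)]
  · by_cases h3 : σ π (mk ω) = ω
    · rw [if_pos h3, if_pos h3, hA]
      unfold law
      ring
    · rw [if_neg h3, if_neg h3, mul_zero]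
  · intro c _ hcne
    by_cases h3 : σ π c = ω
    · rw [if_pos h3, hA]
      rcases (hq.1 π).eq_or_lt with h4 | h4
      · simp only
        rw [← h4, zero_mul]
      · exact absurd (h3 ▸ (h1 π c h4).symm) hcne
    · rw [if_neg h3]
  · intro h
    exact absurd (Finset.mem_univ _) h

theorem st_SLB (h1 : ST_SLA) : ST_SLB := by
  intro m α C hα hC H δ M hδ hδ1 hδM L x v hv Ω _ p hp hpos K l T
  classical
  obtain ⟨d, hd⟩ : ∃ d : Ω → (Fin m → ℤ), ∀ ω, d ω = cell δ (v (l ω)) := ⟨_, fun _ => rfl⟩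
  have hker : Setoid.ker (fun ω => cell δ (v (l ω))) = Setoid.ker d := by
    ext a b
    simp only [Setoid.ker_def, hd]
  rw [hker]
  obtain ⟨A, _, q, σ, hq, hσ1, hσ2⟩ := h1 Ω p hp hpos (K ⊓ Setoid.ker d)
  have : Fintype (Quotient (K ⊓ Setoid.ker d)) := Fintype.ofFinite _
  obtain ⟨mk, hmk⟩ : ∃ mk : Ω → Quotient (K ⊓ Setoid.ker d), mk = Quotient.mk _ := ⟨_, rfl⟩
  have hmk' : ∀ ω ω', mk ω = mk ω' ↔ (K ⊓ Setoid.ker d) ω ω' := by
    intro ω ω'
    rw [hmk]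
    exact Quotient.eq
  rw [← hmk] at hσ1 hσ2
  have hMPQ : MP p (law p mk) mk := fun _ => rfl
  have hQ : IsProb (law p mk) := hMPQ.isProb hp
  have hlaw1 : ∀ c : Unit, law q (fun _ => ()) c = law (law p mk) (fun _ => ()) c := by
    intro c
    unfold law
    have e1 := hq.2
    have e2 := hQ.2
    unfold law at e2
    simp only [if_true]
    rw [e1, e2]
  obtain ⟨pA, hpA⟩ : ∃ pA, pA = glue q (law p mk) (fun _ => ()) (fun _ => ()) := ⟨_, rfl⟩
  have hA : IsProb pA := hpA ▸ glue_isProb hq hQ hlaw1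
  have hA1 : MP pA q Prod.fst := hpA ▸ glue_fst hq.1 hlaw1
  have hA2 : MP pA (law p mk) Prod.snd := hpA ▸ glue_snd hQ.1 hlaw1
  have hAx : ∀ y, pA y = q y.1 * law p mk y.2 := by
    intro y
    rw [hpA]
    unfold glue
    rw [if_pos rfl]
    have : law q (fun _ => ()) () = 1 := by
      unfold law
      simp only [if_true]
      exact hq.2
    rw [this, div_one]
  have hS : MP pA p (fun y => σ y.1 y.2) :=
    slb_MP hp hpos _ mk hmk' hq σ hσ1 hσ2 pA hAx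
  have hlaw2 : ∀ c, law pA (fL K l ∘ fun y => σ y.1 y.2) c = law p (fL K l) c :=
    fun c => hS.law_eq (fL K l) c
  obtain ⟨mu, hmu⟩ : ∃ mu, mu = glue pA p (fL K l ∘ fun y => σ y.1 y.2) (fL K l) := ⟨_, rfl⟩
  have hM : IsProb mu := hmu ▸ glue_isProb hA hp hlaw2
  have hM1 : MP mu pA Prod.fst := hmu ▸ glue_fst hA.1 hlaw2
  have hM2 : MP mu p Prod.snd := hmu ▸ glue_snd hp.1 hlaw2
  have hlink : ∀ y, 0 < mu y → K (σ y.1.1 y.1.2) y.2 ∧ l (σ y.1.1 y.1.2) = l y.2 := by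
    intro y hy
    rw [hmu] at hy
    exact fL_eq.1 (glue_link hy)
  have hqpos : ∀ y, 0 < mu y → 0 < q y.1.1 := by
    intro y hy
    exact hA1.pos hA.1 (hM1.pos hM.1 hy)
  have hc : ∀ y, 0 < mu y → y.1.2 = mk y.2 := by
    intro y hy
    rw [← hσ1 y.1.1 y.1.2 (hqpos y hy), hmk']
    obtain ⟨g1, g2⟩ := hlink y hy
    refine ⟨g1, ?_⟩
    show d _ = d _
    rw [hd, hd, g2]
  have hdet : ∀ y y', 0 < mu y → 0 < mu y' → y.1.1 = y'.1.1 → K y.2 y'.2 → d y.2 = d y'.2 →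
      y.1 = y'.1 := by
    intro y y' hy hy' g1 g2 g3
    refine Prod.ext g1 ?_
    rw [hc y hy, hc y' hy', hmk']
    exact ⟨g2, g3⟩
  have hinj := H δ M hδ hδ1 hδM L x v hv ((A × Quotient (K ⊓ Setoid.ker d)) × Ω) mu hM
    (Setoid.ker (fun y => y.1.1) ⊓ Setoid.comap Prod.snd K) (fun y => l y.2) (fun y => T y.2) (by
      intro y y' hy hy' hK hcell
      have g1 : y.1 = y'.1 := hdet y y' hy hy' hK.1 hK.2 (by rw [hd, hd]; exact hcell)
      rw [← (hlink y hy).2, ← (hlink y' hy').2, g1])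
  have hbot : ∀ s : Setoid Ω, (∀ ω ω', s ω ω' → K ω ω' ∧ l ω = l ω') →
      Ent mu (Setoid.ker (fun y => y.1.1) ⊓ Setoid.comap Prod.snd s) =
        Ent pA ⊥ + Ent p s - Ent pA (Setoid.ker (fL K l ∘ fun y => σ y.1 y.2)) := by
    intro s hs
    rw [← Ent_glue hA hp hlaw2 ⊥ s, ← hmu]
    · apply Ent_congr' hM
      intro y y' hy hy'
      constructor
      · intro g
        obtain ⟨g1, g2⟩ := hs _ _ g.2
        exact ⟨hdet y y' hy hy' g.1 g1 (by rw [hd, hd, g2]), g.2⟩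
      · intro g
        refine ⟨?_, g.2⟩
        show y.1.1 = y'.1.1
        have : y.1 = y'.1 := g.1
        rw [this]
    · intro a a' _ _ g
      have : a = a' := g
      rw [this]
    · intro b b' _ _ g
      exact fL_eq.2 (hs b b' g)
  -- the entropy of the selected pair
  have hpA0 : Ent pA ⊥ = Ent q ⊥ + Ent p (K ⊓ Setoid.ker d) := by
    have e1 := Ent_glue hq hQ hlaw1 ⊥ ⊥ (fun _ _ _ _ _ => rfl) (fun _ _ _ _ _ => rfl)
    rw [← hpA] at e1
    have e2 : Ent q (Setoid.ker (fun _ : A => ())) = 0 := by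
      have : Setoid.ker (fun _ : A => ()) = ⊤ := by
        ext a b
        simp [Setoid.ker_def]
      rw [this]
      exact Ent_top hq
    have e3 : Ent (law p mk) ⊥ = Ent p (K ⊓ Setoid.ker d) := by
      rw [← hMPQ.Ent_eq ⊥]
      apply Ent_congr' hp
      intro ω ω' _ _
      exact hmk' ω ω'
    have e4 : Ent pA (Setoid.comap Prod.fst ⊥ ⊓ Setoid.comap Prod.snd ⊥) = Ent pA ⊥ := by
      apply Ent_congr' hA
      intro y y' _ _
      constructor
      · intro g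
        exact Prod.ext g.1 g.2
      · intro g
        have : y = y' := g
        rw [this]
    rw [e4, e2, e3, sub_zero] at e1
    exact e1
  -- first comparison
  have c0 : Ent mu (Setoid.ker (fun y => y.1.1)) = Ent q ⊥ := by
    have := (hM1.comp hA1).Ent_eq ⊥
    rw [← this]
    rfl
  have cK : ∀ s : Setoid Ω, Ent mu (Setoid.comap Prod.snd s) = Ent p s := fun s => hM2.Ent_eq s
  have b1 : Ent pA ⊥ ≤ Ent mu (Setoid.ker (fun y => y.1.1) ⊓ Setoid.comap Prod.snd K ⊓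
      Setoid.ker (fun y => l y.2)) := by
    rw [← hM1.Ent_eq ⊥]
    apply Ent_mono' hM
    intro y y' hy hy' g
    have g3 : l y.2 = l y'.2 := g.2
    exact hdet y y' hy hy' g.1.1 g.1.2 (by rw [hd, hd, g3])
  have b2 : Ent mu (Setoid.ker (fun y => y.1.1) ⊓ Setoid.comap Prod.snd K) ≤
      Ent q ⊥ + Ent p K := by
    have := submod hM (Setoid.ker (fun y => y.1.1)) (Setoid.comap Prod.snd K) ⊤
    rw [inf_top_eq, inf_top_eq, Ent_top hM, add_zero, c0, cK] at this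
    exact this
  -- second comparison
  have b3 := submod hM (Setoid.ker (fun y : (A × Quotient (K ⊓ Setoid.ker d)) × Ω =>
    cell δ (pnt x v (l y.2) (T y.2)))) (Setoid.ker (fun y => y.1.1))
    (Setoid.comap Prod.snd (K ⊓ Setoid.ker T))
  rw [cK] at b3
  have e5 : Ent mu (Setoid.ker (fun y : (A × Quotient (K ⊓ Setoid.ker d)) × Ω =>
      cell δ (pnt x v (l y.2) (T y.2))) ⊓ Setoid.comap Prod.snd (K ⊓ Setoid.ker T)) =
      Ent p (K ⊓ Setoid.ker T ⊓ Setoid.ker (fun ω => cell δ (pnt x v (l ω) (T ω)))) := by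
    rw [← cK]
    apply Ent_congr' hM
    intro y y' _ _
    exact ⟨fun g => ⟨g.2, g.1⟩, fun g => ⟨g.2, g.1⟩⟩
  have e6 : Ent mu (Setoid.ker (fun y => y.1.1) ⊓ Setoid.comap Prod.snd (K ⊓ Setoid.ker T)) =
      Ent mu (Setoid.ker (fun y => y.1.1) ⊓ Setoid.comap Prod.snd K ⊓
        Setoid.ker (fun y => T y.2)) := by
    apply Ent_congr' hM
    intro y y' _ _
    exact ⟨fun g => ⟨⟨g.1, g.2.1⟩, g.2.2⟩, fun g => ⟨g.1.1, g.1.2, g.2⟩⟩
  have e7 : Ent mu (Setoid.ker (fun y : (A × Quotient (K ⊓ Setoid.ker d)) × Ω =>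
      cell δ (pnt x v (l y.2) (T y.2))) ⊓ (Setoid.ker (fun y => y.1.1) ⊓
        Setoid.comap Prod.snd (K ⊓ Setoid.ker T))) =
      Ent mu (Setoid.ker (fun y => y.1.1) ⊓ Setoid.comap Prod.snd K ⊓
        Setoid.ker (fun y => T y.2) ⊓ Setoid.ker (fun y => cell δ (pnt x v (l y.2) (T y.2)))) := by
    apply Ent_congr' hM
    intro y y' _ _
    exact ⟨fun g => ⟨⟨⟨g.2.1, g.2.2.1⟩, g.2.2.2⟩, g.1⟩,
      fun g => ⟨g.2, g.1.1.1, g.1.1.2, g.1.2⟩⟩
  rw [e5, e6, e7] at b3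
  -- third comparison
  have f1 := hbot (K ⊓ Setoid.ker l) (fun ω ω' g => ⟨g.1, g.2⟩)
  have f2 := hbot (K ⊓ Setoid.ker l ⊓ Setoid.ker T) (fun ω ω' g => ⟨g.1.1, g.1.2⟩)
  have e8 : Ent mu (Setoid.ker (fun y => y.1.1) ⊓ Setoid.comap Prod.snd (K ⊓ Setoid.ker l)) =
      Ent mu (Setoid.ker (fun y => y.1.1) ⊓ Setoid.comap Prod.snd K ⊓
        Setoid.ker (fun y => l y.2)) := by
    apply Ent_congr' hM
    intro y y' _ _
    exact ⟨fun g => ⟨⟨g.1, g.2.1⟩, g.2.2⟩, fun g => ⟨g.1.1, g.1.2, g.2⟩⟩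
  have e9 : Ent mu (Setoid.ker (fun y => y.1.1) ⊓
      Setoid.comap Prod.snd (K ⊓ Setoid.ker l ⊓ Setoid.ker T)) =
      Ent mu (Setoid.ker (fun y => y.1.1) ⊓ Setoid.comap Prod.snd K ⊓
        Setoid.ker (fun y => l y.2) ⊓ Setoid.ker (fun y => T y.2)) := by
    apply Ent_congr' hM
    intro y y' _ _
    exact ⟨fun g => ⟨⟨⟨g.1, g.2.1.1⟩, g.2.1.2⟩, g.2.2⟩,
      fun g => ⟨g.1.1.1, ⟨g.1.1.2, g.1.2⟩, g.2⟩⟩
  rw [e8] at f1
  rw [e9] at f2
  have g1 : α * (Ent mu (Setoid.ker (fun y => y.1.1) ⊓ Setoid.comap Prod.snd K ⊓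
        Setoid.ker (fun y => T y.2) ⊓ Setoid.ker (fun y => cell δ (pnt x v (l y.2) (T y.2)))) -
      Ent mu (Setoid.ker (fun y => y.1.1) ⊓ Setoid.comap Prod.snd K ⊓
        Setoid.ker (fun y => T y.2))) ≤
      α * (Ent p (K ⊓ Setoid.ker T ⊓ Setoid.ker (fun ω => cell δ (pnt x v (l ω) (T ω)))) -
        Ent p (K ⊓ Setoid.ker T)) :=
    mul_le_mul_of_nonneg_left (by linarith) hα
  have g2 : Ent mu (Setoid.ker (fun y => y.1.1) ⊓ Setoid.comap Prod.snd K ⊓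
        Setoid.ker (fun y => l y.2) ⊓ Setoid.ker (fun y => T y.2)) -
      Ent mu (Setoid.ker (fun y => y.1.1) ⊓ Setoid.comap Prod.snd K ⊓
        Setoid.ker (fun y => l y.2)) =
      Ent p (K ⊓ Setoid.ker l ⊓ Setoid.ker T) - Ent p (K ⊓ Setoid.ker l) := by
    rw [f1, f2]
    ring
  rw [g2] at hinj
  linarith

end Pool.Agent.Helper93.TS
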